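import Pool.Agent.Lib.MP_cb8a44_nt.AB.Main

/-!
# Totally real abelian fields with Pythagoras number at most 3 (MP_cb8a44_nt)
-/

namespace Pool.Agent.Results.MP_cb8a44_nt.AbelianFields

/-- There are only finitely many totally real number fields `K ⊆ ℂ`, contained in a cyclotomic
field `ℚ(e^{2πi/N})` (equivalently, abelian over `ℚ`; of any degree and any conductor), such that
every sum of squares in `𝓞_K` is a sum of three squares. -/
theorem result :
    {K : IntermediateField ℚ ℂ |
      (∃ N : ℕ, 0 < N ∧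
        K ≤ IntermediateField.adjoin ℚ {Complex.exp (2 * Real.pi * Complex.I / N)}) ∧
      (∀ φ : K →+* ℂ, ∀ x : K, (φ x).im = 0) ∧
      (∀ x : integralClosure ℤ K,
        (∃ m : ℕ, ∃ f : Fin m → integralClosure ℤ K, x = ∑ i, f i ^ 2) →
          ∃ f : Fin 3 → integralClosure ℤ K, x = ∑ i, f i ^ 2)}.Finite :=
  Pool.Agent.Lib.MPcb8a44.AB.main

end Pool.Agent.Results.MP_cb8a44_nt.AbelianFields
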