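import Pool.Agent.Lib.MP_cb8a44_nt.F4.All

/-!
# Totally real fields with `P(O_K) ≤ 3` have bounded root discriminant

The proof (files `RM/`, `PL/`, `RC/`, `RD/` under `Pool/Agent/Lib/MP_cb8a44_nt/`) contains the
exponential reverse Minkowski inequality: a lattice of rank `n` all of whose sublattices have
covolume at least `1` has Gaussian mass at most `C ^ n` (Regev, Stephens-Davidowitz).
-/

open NumberField Module

namespace Pool.Agent.Results.MP_cb8a44_nt.BoundedRootDiscriminant

/-- There is an absolute constant `C` such that every totally real number field `K`, of any degree,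
in whose ring of integers every sum of squares is a sum of three squares has
`|disc K| ≤ C ^ [K:ℚ]`, that is, root discriminant at most `C`. -/
theorem result :
    ∃ C : ℕ, ∀ (K : Type) [Field K] [NumberField K],
      (∀ φ : K →+* ℂ, ∀ x : K, (φ x).im = 0) →
      (∀ x : 𝓞 K, (∃ (m : ℕ) (f : Fin m → 𝓞 K), x = ∑ i, f i ^ 2) →
        ∃ f : Fin 3 → 𝓞 K, x = ∑ i, f i ^ 2) →
      |discr K| ≤ C ^ finrank ℚ K :=
  Pool.Agent.Lib.MPcb8a44.RC.All.result

end Pool.Agent.Results.MP_cb8a44_nt.BoundedRootDiscriminant
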