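import Pool.Agent.Lib.MP_cb8a44_nt.F4.All

/-!
# Totally real fields with `P(O_K) ≤ 3`, `2` unramified and many small primes

The proof is in the files `F4/` under `Pool/Agent/Lib/MP_cb8a44_nt/` (outline in `F4/Spec.lean`); it
uses the theorem of `BoundedRootDiscriminant.lean`. The special case (`2` is unramified in `K` and
all residue fields at `2` have at most four elements) is `Pool.Agent.Lib.MPcb8a44.F4.four` in
`F4/All.lean`.
-/

open NumberField Module

namespace Pool.Agent.Results.MP_cb8a44_nt.ManySmallPrimes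

/-- Let `Q` be a natural number. There are only finitely many totally real number fields `K ⊆ ℂ`,
of any degree, such that every sum of squares in `𝓞 K` is a sum of three squares, `2` is unramified
in `K` (`2 ∣ y ^ 2` implies `2 ∣ y`), every prime above `2` has norm `≡ 4` modulo `5` (residue
degree `≡ 2` modulo `4`) in case `√5 ∈ K`, and, for some finite set `S` of maximal ideals `q` of
norm `N q ≤ Q`, the sum of `w q * log (N q) / (N q - 1)` over `q ∈ S` is at least `θ * [K : ℚ]`,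
where `w q = 2` if `q` divides `2` and `w q = 1` otherwise, and `θ = 3 / 10` if `√5 ∉ K` and
`θ = 19 / 50` if `√5 ∈ K`. -/
theorem result (Q : ℕ) :
    {K : IntermediateField ℚ ℂ |
      FiniteDimensional ℚ K ∧
      (∀ φ : K →+* ℂ, ∀ x : K, (φ x).im = 0) ∧
      (∀ x : 𝓞 K, (∃ (m : ℕ) (f : Fin m → 𝓞 K), x = ∑ i, f i ^ 2) →
        ∃ f : Fin 3 → 𝓞 K, x = ∑ i, f i ^ 2) ∧
      (∀ y : 𝓞 K, 2 ∣ y ^ 2 → 2 ∣ y) ∧
      ((∃ y : K, y ^ 2 = 5) → ∀ q : Ideal (𝓞 K), q.IsMaximal → (2 : 𝓞 K) ∈ q →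
        Nat.card (𝓞 K ⧸ q) % 5 = 4) ∧
      (∃ S : Finset (Ideal (𝓞 K)), (∀ q ∈ S, q.IsMaximal ∧ Nat.card (𝓞 K ⧸ q) ≤ Q) ∧
        (open Classical in if ∃ y : K, y ^ 2 = 5 then (19 / 50 : ℝ) else 3 / 10) * finrank ℚ K ≤
          ∑ q ∈ S, (open Classical in if (2 : 𝓞 K) ∈ q then (2 : ℝ) else 1) *
            (Real.log (Nat.card (𝓞 K ⧸ q)) / ((Nat.card (𝓞 K ⧸ q) : ℝ) - 1)))}.Finite :=
  Pool.Agent.Lib.MPcb8a44.F4.all Q

end Pool.Agent.Results.MP_cb8a44_nt.ManySmallPrimes
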