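import Pool.Agent.Lib.MP_cb8a44_nt.SX.All

/-!
# Totally real fields with `P(O_K) ≤ 3` and unramified CM extensions

The proof (files `SX/` under `Pool/Agent/Lib/MP_cb8a44_nt/`) contains Dirichlet's theorem for the
class group modulo the principal ideals with a generator of positive norm, the Gauss-Milgram formula
and the reciprocity law which follows from it.
-/

open NumberField Module

namespace Pool.Agent.Results.MP_cb8a44_nt.UnramifiedCM

/-- Let `K` be a totally real number field in whose ring of integers every sum of squares is a sum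
of three squares. Let `t` be a totally positive integer of `K` which generates the square of an ideal
and such that `-t` is a square modulo `8 t`, more precisely `8 t ∣ s² + t` for an integer `s` of `K`.
Then `t` is a square. -/
theorem result :
    ∀ (K : Type) [Field K] [NumberField K],
      (∀ φ : K →+* ℂ, ∀ x : K, (φ x).im = 0) →
      (∀ x : 𝓞 K, (∃ (m : ℕ) (f : Fin m → 𝓞 K), x = ∑ i, f i ^ 2) →
        ∃ f : Fin 3 → 𝓞 K, x = ∑ i, f i ^ 2) →
      ∀ (t s : 𝓞 K) (a : Ideal (𝓞 K)), (∀ φ : K →+* ℂ, 0 < (φ (t : K)).re) →
        a ^ 2 = Ideal.span {t} → 8 * t ∣ s ^ 2 + t → ∃ y : 𝓞 K, t = y ^ 2 :=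
  Pool.Agent.Lib.MPcb8a44.SX.final

end Pool.Agent.Results.MP_cb8a44_nt.UnramifiedCM
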